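import Pool.Agent.H9.EH.Step1
import Pool.Agent.H24.EH.Defs
import Pool.Agent.H93.EH.Touch

/-!
# EHP, block A4: the layer defect in the coordinates of the energy part
-/

set_option autoImplicit false

open MeasureTheory Real Set Filter intervalIntegral
open scoped Topology
open Pool.Agent.H21.EH (gv continuous_gv gv_nonneg one_le_conf)
open Pool.Agent.H56.EH (Nv Nz)
open Pool.Agent.H24.EH (ex gQ gV yQ yV rho Mx mn Dd Touch)

noncomputable section

namespace Pool.Agent.H9.EH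

theorem ex_eq (l φ : ℝ) : ex (l, φ) = circleMap 0 (Real.exp l) φ := by
  simp only [ex, circleMap, zero_add]
  rw [Complex.exp_add, Complex.ofReal_exp]

theorem norm_ex (l φ : ℝ) : ‖ex (l, φ)‖ = Real.exp l := by
  rw [ex_eq, norm_cm (Real.exp_pos l).le]

theorem gV_eq (z : ℂ) : gV z = gv z := rfl

theorem Mx_eq (l : ℝ) : Mx l = Mr (Real.exp l) := by
  unfold Mx Mr rho
  congr 1
  ring

theorem mn_eq (l : ℝ) : mn l = mr (Real.exp l) := by
  unfold mn mr rho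
  congr 2
  ring

/-- the product form is the positive part of the sum form off the zeros -/
theorem gQ_eq {n : ℕ} (a : Fin n → ℂ) {w : ℂ} (hw : ∀ j, w ≠ a j) :
    gQ a w = max (xz a w) 0 := by
  unfold gQ xz
  have h : Real.log ‖∏ j, (w - a j)‖ = ∑ j, Real.log ‖w - a j‖ := by
    rw [norm_prod, Real.log_prod]
    intro j _
    rw [norm_ne_zero_iff, sub_ne_zero]
    exact hw j
  have h2 : Real.posLog ‖∏ j, (w - a j)‖ = max 0 (Real.log ‖∏ j, (w - a j)‖) := rfl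
  rw [h2, h, mul_max_of_nonneg _ _ (by positivity), mul_zero, max_comm]

theorem gQ_zero {n : ℕ} (a : Fin n → ℂ) {w : ℂ} (hw : ¬ ∀ j, w ≠ a j) : gQ a w = 0 := by
  push Not at hw
  obtain ⟨j, hj⟩ := hw
  unfold gQ
  have : ∏ j, (w - a j) = 0 := Finset.prod_eq_zero (Finset.mem_univ j) (by rw [hj, sub_self])
  rw [this]
  simp

theorem gQ_nonneg {n : ℕ} (a : Fin n → ℂ) (w : ℂ) : 0 ≤ gQ a w := by
  unfold gQ
  exact mul_nonneg (by positivity) Real.posLog_nonneg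

/-- almost every point of the circle is no zero -/
theorem ae_ne {n : ℕ} (a : Fin n → ℂ) {r : ℝ} (hr : 0 < r) :
    ∀ᵐ φ : ℝ, ∀ j, circleMap 0 r φ ≠ a j := by
  have h : (circleMap 0 r ⁻¹' (range a)).Countable :=
    Set.Countable.preimage_circleMap (countable_range a) 0 hr.ne'
  have h2 := h.measure_zero volume
  rw [← compl_compl (circleMap 0 r ⁻¹' (range a))] at h2
  have h3 : ∀ᵐ φ : ℝ, φ ∈ (circleMap 0 r ⁻¹' (range a))ᶜ := h2
  filter_upwards [h3] with φ hφ j hj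
  exact hφ ⟨j, hj.symm⟩

theorem J_yQ_eq {n : ℕ} (a : Fin n → ℂ) (l : ℝ) {t : ℝ} (ht : 0 ≤ t) :
    Pool.Agent.H24.EH.J (yQ a) l t = Sx a (Real.exp l) t := by
  unfold Pool.Agent.H24.EH.J Sx
  refine intervalIntegral.integral_congr_ae ?_
  filter_upwards [ae_ne a (Real.exp_pos l)] with φ hφ _
  unfold yQ
  rw [ex_eq, gQ_eq a hφ]
  rcases le_total (xz a (circleMap 0 (Real.exp l) φ)) 0 with h | h
  · rw [max_eq_right h, max_eq_right (by linarith), max_eq_right (by linarith)]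
  · rw [max_eq_left h]

theorem J_yV_eq (l t : ℝ) : Pool.Agent.H24.EH.J yV l t = Sv (Real.exp l) t := by
  unfold Pool.Agent.H24.EH.J Sv yV
  simp only [ex_eq, gV_eq]

theorem Dd_eq {n : ℕ} (a : Fin n → ℂ) (l : ℝ) {t : ℝ} (ht : 0 ≤ t) :
    Dd a l t = DD a (Real.exp l) t := by
  unfold Dd DD
  rw [J_yQ_eq a l ht, J_yV_eq]

theorem step1_Touch {n : ℕ} {a : Fin n → ℂ} {p : ℝ} (h : Touch a p) {r : ℝ} (hr : 0 < r)
    (T : ℝ) : Sx a r T ≤ Sv r T := step1 h.hn a h.le hr T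

/-- (D1) -/
theorem Dd_nonneg {n : ℕ} {a : Fin n → ℂ} {p : ℝ} (h : Touch a p) (l t : ℝ) (ht : 0 ≤ t) :
    0 ≤ Dd a l t := by
  rw [Dd_eq a l ht]
  unfold DD
  linarith [step1_Touch h (Real.exp_pos l) t]

/-- (D2) -/
theorem yQ_le {n : ℕ} {a : Fin n → ℂ} {p : ℝ} (h : Touch a p) (l φ : ℝ) : yQ a (l, φ) ≤ Mx l := by
  rw [Mx_eq]
  unfold yQ
  have h0 := Mr_nonneg (Real.exp_pos l).le
  by_cases hw : ∀ j, ex (l, φ) ≠ a j
  · rw [gQ_eq a hw]
    refine max_le ?_ h0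
    have h1 := xz_le_Mr hw (by
      rw [norm_ex]
      exact step1_Touch h (Real.exp_pos l) _)
    rwa [norm_ex] at h1
  · rw [gQ_zero a hw]
    exact h0

theorem yV_le (l φ : ℝ) : yV (l, φ) ≤ Mx l := by
  rw [Mx_eq]
  unfold yV
  have h := gv_le_Mr (ex (l, φ))
  rwa [norm_ex] at h

theorem le_yV (l φ : ℝ) : mn l ≤ yV (l, φ) := by
  rw [mn_eq]
  unfold yV
  have h := mr_le_gv (ex (l, φ))
  rwa [norm_ex] at h

theorem le_xz_Touch {n : ℕ} {a : Fin n → ℂ} {p : ℝ} (h : Touch a p) {w : ℂ} (hw : 4 ≤ ‖w‖) :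
    mr ‖w‖ ≤ xz a w := by
  refine mr_le_xz h.hn hw ?_ (fun j => (h.a4 j).le) (step1_Touch h (by linarith) _)
  intro j hj
  have := h.a4 j
  rw [← hj] at this
  linarith

theorem le_yQ {n : ℕ} {a : Fin n → ℂ} {p : ℝ} (h : Touch a p) (l φ : ℝ) (hl : Real.log 4 ≤ l) :
    mn l ≤ yQ a (l, φ) := by
  have h4 : 4 ≤ Real.exp l := by
    rw [← Real.log_le_iff_le_exp (by norm_num)]
    exact hl
  have h4' : 4 ≤ ‖ex (l, φ)‖ := by rw [norm_ex]; exact h4
  rw [mn_eq]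
  unfold yQ
  have hw : ∀ j, ex (l, φ) ≠ a j := by
    intro j hj
    have := h.a4 j
    rw [← hj] at this
    linarith
  rw [gQ_eq a hw]
  have h1 := le_xz_Touch h h4'
  rw [norm_ex] at h1
  exact h1.trans (le_max_left _ _)

/-- (D3) -/
theorem Dd_zero {n : ℕ} {a : Fin n → ℂ} {p : ℝ} (h : Touch a p) (l t : ℝ) (hl : Real.log 4 ≤ l)
    (ht : t ≤ mn l) : Dd a l t = 0 := by
  have h4 : 4 ≤ Real.exp l := by
    rw [← Real.log_le_iff_le_exp (by norm_num)]
    exact hl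
  have hzz : ∀ j, ‖a j‖ ≤ 4 := fun j => (h.a4 j).le
  rcases le_total 0 t with ht0 | ht0
  · rw [Dd_eq a l ht0]
    rw [mn_eq] at ht
    exact DD_eq_zero_of_le h.hn h4 hzz ht (step1_Touch h (Real.exp_pos l) t)
  · -- negative levels: plain means
    have e1 : Pool.Agent.H24.EH.J (yQ a) l t = Sx a (Real.exp l) t := by
      unfold Pool.Agent.H24.EH.J Sx
      refine intervalIntegral.integral_congr fun φ _ => ?_
      have h4' : 4 ≤ ‖ex (l, φ)‖ := by rw [norm_ex]; exact h4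
      have hw : ∀ j, ex (l, φ) ≠ a j := by
        intro j hj
        have := h.a4 j
        rw [← hj] at this
        linarith
      have h1 := le_xz_Touch h h4'
      have h2 := mr_nonneg ‖ex (l, φ)‖
      simp only [yQ]
      rw [gQ_eq a hw, max_eq_left (h2.trans h1), ex_eq]
    unfold Dd
    rw [e1, J_yV_eq]
    rw [mn_eq] at ht
    have := Sx_eq_Sv h.hn h4 hzz ht (step1_Touch h (Real.exp_pos l) t)
    rw [this.1, this.2, sub_self]

end Pool.Agent.H9.EH
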