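import Pool.Agent.H9.EH.Rng
import Pool.Agent.H58.EH.Sum
import Pool.Agent.H56.EH.NV

/-!
# EHP, step 1, final form
-/

set_option autoImplicit false

open MeasureTheory Real Set Filter intervalIntegral
open scoped Topology
open Pool.Agent.H21.EH (gv continuous_gv gv_nonneg one_le_conf int_gv_full int_gv_arc int_cos_half
  neg_circleMap)
open Pool.Agent.H56.EH (Nv Nz)
open Pool.Agent.H58.EH (bb sum_J_le dd)

noncomputable section

namespace Pool.Agent.H9.EH

theorem J_eq (r ψ t : ℝ) : J r ψ t = Pool.Agent.H58.EH.J r ψ t := by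
  unfold J Pool.Agent.H58.EH.J
  refine intervalIntegral.integral_congr fun φ _ => ?_
  have h : dd r t φ = ‖circleMap 0 r φ + (t : ℂ)‖ ^ 2 := by
    rw [norm_circleMap_add_sq]; rfl
  simp only [h, Real.log_pow]
  push_cast
  ring

theorem half_Nv {s : ℝ} (hs : 0 < s) :
    ∫ θ in (0 : ℝ)..(2 * π), Real.log (max s (2 + 2 * Real.cos θ)) = 2 * π * Nv s := by
  have h := int_cos_half (fun x => Real.log (max s (2 + 2 * x)))
    (Pool.Agent.H56.EH.nv_intble hs _ _)
  rw [h]
  unfold Nv
  have hpi := Real.pi_pos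
  field_simp

/-- mean of one logarithm on a circle -/
theorem integral_log_eq {r : ℝ} (hr : 0 < r) (a : ℂ) :
    ∫ φ in (0)..(2 * π), Real.log ‖circleMap 0 r φ - a‖ = 2 * π * Real.log (max r ‖a‖) := by
  have h := circleAverage_log_norm_sub_const_eq_log_radius_add_posLog (a := a) (c := 0)
    (R := r) hr.ne'
  rw [Real.circleAverage_def, zero_sub, norm_neg, smul_eq_mul] at h
  have h2 : Real.log (max r ‖a‖) = Real.log r + Real.posLog (r⁻¹ * ‖a‖) := by
    rw [Pool.Agent.H58.EH.log_max_eq hr (norm_nonneg a), div_eq_inv_mul]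
  rw [h2, ← h]
  field_simp

theorem integral_xz_eq {n : ℕ} (z : Fin n → ℂ) {r : ℝ} (hr : 0 < r) :
    ∫ φ in (0)..(2 * π), xz z (circleMap 0 r φ) = 2 * π * Nz z r := by
  unfold xz Nz
  rw [intervalIntegral.integral_const_mul, intervalIntegral.integral_finsetSum]
  · have : ∀ j ∈ Finset.univ, ∫ φ in (0)..(2 * π), Real.log ‖circleMap 0 r φ - z j‖ =
        2 * π * Real.log (max r ‖z j‖) := fun j _ => integral_log_eq hr (z j)
    rw [Finset.sum_congr rfl this, ← Finset.mul_sum]
    ring
  · intro j _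
    exact intervalIntegrable_log_sub r (z j) _ _

theorem integral_gv_eq {r : ℝ} (hr : 0 < r) :
    ∫ φ in (0)..(2 * π), gv (circleMap 0 r φ) = 2 * π * Nv r := by
  rw [int_gv_full hr, half_Nv hr]

theorem J_pi {r : ℝ} (hr : 0 < r) {t : ℝ} (ht : 0 ≤ t) :
    J r π t = 2 * π * Real.log (max r t) := by
  have h1 := integral_log_eq hr (-(t : ℂ))
  have e : ‖-(t : ℂ)‖ = t := by
    rw [norm_neg, Complex.norm_real, Real.norm_eq_abs, abs_of_nonneg ht]
  rw [e] at h1
  rw [← h1]
  unfold J
  simp only [sub_neg_eq_add]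
  have hp : Function.Periodic (fun φ => Real.log ‖circleMap 0 r φ + (t : ℂ)‖) (2 * π) := by
    intro φ
    simp only
    rw [periodic_circleMap]
  have h2 := hp.intervalIntegral_add_eq (-π) 0
  rw [zero_add] at h2
  rw [← h2]
  congr 1
  ring

theorem integral_gv_pi {r : ℝ} (hr : 0 < r) :
    ∫ φ in (-π)..π, gv (-(circleMap 0 r φ)) = 2 * π * Nv r := by
  rw [← integral_gv_eq hr]
  simp only [neg_circleMap]
  have := intervalIntegral.integral_comp_add_right
    (f := fun φ => gv (circleMap 0 r φ)) (a := -π) (b := π) π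
  rw [this]
  congr 1 <;> ring

/-- the hypothesis of `step1_of_J` -/
theorem J_le_gv {n : ℕ} (hn : 0 < n) (a : Fin n → ℂ) (h : ∀ s, 0 < s → Nz a s ≤ Nv s)
    {r : ℝ} (hr : 0 < r) (ψ : ℝ) (h0 : 0 ≤ ψ) (h1 : ψ ≤ π) :
    (1 / (n : ℝ)) * ∑ j, J r ψ ‖a j‖ ≤ ∫ φ in (-ψ)..ψ, gv (-(circleMap 0 r φ)) := by
  rcases h0.eq_or_lt with h0 | h0
  · subst h0
    simp [J]
  rcases h1.eq_or_lt with h1 | h1
  · subst h1
    rw [integral_gv_pi hr]
    have e : ∀ j, J r π ‖a j‖ = 2 * π * Real.log (max r ‖a j‖) :=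
      fun j => J_pi hr (norm_nonneg _)
    simp only [e]
    rw [← Finset.mul_sum]
    have := h r hr
    unfold Nz at this
    have hpi := Real.pi_pos
    calc (1 / (n : ℝ)) * (2 * π * ∑ j, Real.log (max r ‖a j‖))
        = 2 * π * ((1 / (n : ℝ)) * ∑ j, Real.log (max r ‖a j‖)) := by ring
      _ ≤ 2 * π * Nv r := mul_le_mul_of_nonneg_left this (by positivity)
  · have h2 := sum_J_le hr h0 h1 hn (fun j => ‖a j‖) (fun j => norm_nonneg _) (by
      intro x hx
      have h3 := h x hx
      unfold Nz at h3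
      refine h3.trans (le_of_eq ?_)
      have h4 := half_Nv hx
      have h5 : ∀ θ, bb θ = 2 + 2 * Real.cos θ := fun θ => rfl
      simp only [h5]
      rw [h4]
      field_simp)
    simp only [J_eq]
    refine h2.trans (le_of_eq ?_)
    rw [int_gv_arc hr h0.le h1.le, one_div]
    congr 1
    refine intervalIntegral.integral_congr fun θ _ => ?_
    rw [← J_eq]
    rfl

/-- **Step 1.** -/
theorem step1 {n : ℕ} (hn : 0 < n) (a : Fin n → ℂ) (h : ∀ s, 0 < s → Nz a s ≤ Nv s)
    {r : ℝ} (hr : 0 < r) (T : ℝ) : Sx a r T ≤ Sv r T :=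
  step1_of_J a r hr gv (cont_gv_circle r) (J_le_gv hn a h hr) T

/-- upper bound of the layer difference in terms of the means -/
theorem DD_le_means {n : ℕ} (a : Fin n → ℂ) {r : ℝ} (hr : 0 < r) (t : ℝ) :
    DD a r t ≤ 2 * π * (Nv r - Nz a r) +
      ∫ φ in (0)..(2 * π), max (t - gv (circleMap 0 r φ)) 0 := by
  have h1 := Sx_ge a r t
  rw [integral_xz_eq a hr] at h1
  have h2 : Sv r t = 2 * π * Nv r - 2 * π * t +
      ∫ φ in (0)..(2 * π), max (t - gv (circleMap 0 r φ)) 0 := by
    have e : ∀ φ, max (gv (circleMap 0 r φ) - t) 0 =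
        (gv (circleMap 0 r φ) - t) + max (t - gv (circleMap 0 r φ)) 0 := by
      intro φ
      rcases le_total (gv (circleMap 0 r φ)) t with h | h
      · rw [max_eq_right (by linarith), max_eq_left (by linarith)]; ring
      · rw [max_eq_left (by linarith), max_eq_right (by linarith)]; ring
    have hc := cont_gv_circle r
    unfold Sv
    simp only [e]
    rw [intervalIntegral.integral_add, intervalIntegral.integral_sub, integral_gv_eq hr,
      intervalIntegral.integral_const]
    · simp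
    · exact hc.intervalIntegrable _ _
    · simp
    · exact (hc.sub continuous_const).intervalIntegrable _ _
    · exact ((continuous_const.sub hc).max continuous_const).intervalIntegrable _ _
  unfold DD
  linarith

end Pool.Agent.H9.EH
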