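import Pool.Agent.H9.EH.LemR

/-!
# EHP, step 1: assembly (level sets of the mean of logarithms on a circle)
-/

set_option autoImplicit false

open MeasureTheory Real Set Filter intervalIntegral

noncomputable section

namespace Pool.Agent.H9.EH

theorem intervalIntegrable_log_sub (r : ℝ) (w : ℂ) (a b : ℝ) :
    IntervalIntegrable (fun φ => Real.log ‖circleMap 0 r φ - w‖) volume a b := by
  have h := circleIntegrable_log_norm_sub_const (a := w) (c := 0) r
  have h2 : IntervalIntegrable (fun φ => Real.log ‖circleMap 0 r φ - w‖) volume 0 (2 * π) := by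
    have := h
    unfold CircleIntegrable at this
    simpa using this
  have hp : Function.Periodic (fun φ => Real.log ‖circleMap 0 r φ - w‖) (2 * π) := by
    intro φ
    simp only
    rw [periodic_circleMap]
  exact hp.intervalIntegrable₀ Real.two_pi_pos.ne' h2 a b

/-- Lemma R summed over a finite family of points -/
theorem lemR_sum {n : ℕ} (z : Fin n → ℂ) (r : ℝ) (hr : 0 < r) (ψ : ℝ) (h0 : 0 ≤ ψ) (h1 : ψ ≤ π)
    (χ : ℝ → ℝ)
    (hχm : Measurable χ) (hχ0 : ∀ φ, 0 ≤ χ φ) (hχ1 : ∀ φ, χ φ ≤ 1)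
    (hper : Function.Periodic χ (2 * π)) (hint : ∫ φ in (0)..(2 * π), χ φ = 2 * ψ) :
    ∫ φ in (0)..(2 * π), χ φ * ((1 / (n : ℝ)) * ∑ j, Real.log ‖circleMap 0 r φ - z j‖) ≤
      (1 / (n : ℝ)) * ∑ j, J r ψ ‖z j‖ := by
  have e1 : ∀ φ, χ φ * ((1 / (n : ℝ)) * ∑ j, Real.log ‖circleMap 0 r φ - z j‖) =
      (1 / (n : ℝ)) * ∑ j, χ φ * Real.log ‖circleMap 0 r φ - z j‖ := by
    intro φ
    rw [Finset.mul_sum, Finset.mul_sum, Finset.mul_sum]
    exact Finset.sum_congr rfl fun j _ => by ring
  simp only [e1]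
  rw [intervalIntegral.integral_const_mul, intervalIntegral.integral_finsetSum]
  · refine mul_le_mul_of_nonneg_left ?_ (by positivity)
    exact Finset.sum_le_sum fun j _ => lemR r hr ψ h0 h1 (z j) χ hχm hχ0 hχ1 hper hint
  · intro j _
    exact intervalIntegrable_chi_mul hχm hχ0 hχ1 (intervalIntegrable_log_sub r (z j) _ _)

/-- **Step 1, assembly.** -/
theorem step1_of_J {n : ℕ} (z : Fin n → ℂ) (r : ℝ) (hr : 0 < r) (gv : ℂ → ℝ)
    (hgv : Continuous fun φ : ℝ => gv (circleMap 0 r φ))
    (hJ : ∀ ψ, 0 ≤ ψ → ψ ≤ π → (1 / (n : ℝ)) * ∑ j, J r ψ ‖z j‖ ≤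
      ∫ φ in (-ψ)..ψ, gv (-(circleMap 0 r φ))) (T : ℝ) :
    ∫ φ in (0)..(2 * π), max ((1 / (n : ℝ)) * ∑ j, Real.log ‖circleMap 0 r φ - z j‖ - T) 0 ≤
      ∫ φ in (0)..(2 * π), max (gv (circleMap 0 r φ) - T) 0 := by
  classical
  set u : ℝ → ℝ := fun φ => (1 / (n : ℝ)) * ∑ j, Real.log ‖circleMap 0 r φ - z j‖ with hu
  have hum : Measurable u := by
    refine Measurable.const_mul ?_ _
    refine Finset.measurable_sum _ fun j _ => ?_
    refine Real.measurable_log.comp ?_
    exact ((continuous_circleMap 0 r).sub continuous_const).norm.measurable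
  have huper : Function.Periodic u (2 * π) := by
    intro φ
    simp only [hu]
    rw [periodic_circleMap]
  set χ : ℝ → ℝ := ({φ | T < u φ} : Set ℝ).indicator (fun _ => (1 : ℝ)) with hχ
  have hχm : Measurable χ := measurable_const.indicator (measurableSet_lt measurable_const hum)
  have hχ0 : ∀ φ, 0 ≤ χ φ := fun φ => indicator_nonneg (fun _ _ => zero_le_one) φ
  have hχ1 : ∀ φ, χ φ ≤ 1 := fun φ => indicator_le_self' (fun _ _ => zero_le_one) φ
  have hper : Function.Periodic χ (2 * π) := by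
    intro φ
    by_cases h : T < u φ
    · have h' : T < u (φ + 2 * π) := by rw [huper φ]; exact h
      simp [hχ, h, h']
    · have h' : ¬ T < u (φ + 2 * π) := by rw [huper φ]; exact h
      simp [hχ, h, h']
  have hχI : ∀ a b, IntervalIntegrable χ volume a b := by
    intro a b
    have := intervalIntegrable_chi_mul hχm hχ0 hχ1 (a := a) (b := b)
      (h := fun _ => (1 : ℝ)) (by simp)
    simpa using this
  set ψ : ℝ := (∫ φ in (0)..(2 * π), χ φ) / 2 with hψ
  have hint : ∫ φ in (0)..(2 * π), χ φ = 2 * ψ := by rw [hψ]; ring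
  have h0 : 0 ≤ ψ := by
    have : 0 ≤ ∫ φ in (0)..(2 * π), χ φ :=
      intervalIntegral.integral_nonneg Real.two_pi_pos.le fun φ _ => hχ0 φ
    rw [hψ]; linarith
  have h1 : ψ ≤ π := by
    have : ∫ φ in (0)..(2 * π), χ φ ≤ ∫ φ in (0)..(2 * π), (1 : ℝ) :=
      intervalIntegral.integral_mono_on Real.two_pi_pos.le (hχI _ _) (by simp)
        fun φ _ => hχ1 φ
    rw [intervalIntegral.integral_const] at this
    simp only [smul_eq_mul, mul_one, sub_zero] at this
    rw [hψ]; linarith
  have huI : IntervalIntegrable u volume 0 (2 * π) := by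
    refine IntervalIntegrable.const_mul ?_ _
    have := IntervalIntegrable.sum (μ := volume) (a := 0) (b := 2 * π) Finset.univ
      (f := fun (j : Fin n) φ => Real.log ‖circleMap 0 r φ - z j‖)
      (fun j _ => intervalIntegrable_log_sub r (z j) _ _)
    have e : (∑ j : Fin n, fun φ => Real.log ‖circleMap 0 r φ - z j‖) =
        fun φ => ∑ j : Fin n, Real.log ‖circleMap 0 r φ - z j‖ := by
      funext φ
      simp
    rw [e] at this
    exact this
  -- the left side
  have e1 : ∀ φ, max (u φ - T) 0 = χ φ * u φ - T * χ φ := by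
    intro φ
    by_cases h : T < u φ
    · have : χ φ = 1 := by simp [hχ, h]
      rw [this, max_eq_left (by linarith)]; ring
    · have : χ φ = 0 := by simp [hχ, h]
      rw [this, max_eq_right (by linarith)]; ring
  have e2 : ∫ φ in (0)..(2 * π), max (u φ - T) 0 =
      (∫ φ in (0)..(2 * π), χ φ * u φ) - T * (2 * ψ) := by
    simp only [e1]
    rw [intervalIntegral.integral_sub, intervalIntegral.integral_const_mul, hint]
    · exact intervalIntegrable_chi_mul hχm hχ0 hχ1 huI
    · exact (hχI _ _).const_mul T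
  have e3 := lemR_sum z r hr ψ h0 h1 χ hχm hχ0 hχ1 hper hint
  have e4 := hJ ψ h0 h1
  -- the right side
  have hneg : ∀ φ, -(circleMap 0 r φ) = circleMap 0 r (φ + π) := by
    intro φ
    simp only [circleMap, zero_add]
    push_cast
    rw [add_mul, Complex.exp_add, Complex.exp_pi_mul_I]
    ring
  have hc1 : Continuous fun φ : ℝ => gv (-(circleMap 0 r φ)) := by
    simp only [hneg]
    exact hgv.comp (continuous_id.add continuous_const)
  have e5 : ∫ φ in (-ψ)..ψ, gv (-(circleMap 0 r φ)) - T =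
      (∫ φ in (-ψ)..ψ, gv (-(circleMap 0 r φ))) - T * (2 * ψ) := by
    rw [intervalIntegral.integral_sub (hc1.intervalIntegrable _ _) (by simp)]
    rw [intervalIntegral.integral_const]
    simp only [smul_eq_mul]
    ring
  have hc2 : Continuous fun φ : ℝ => max (gv (-(circleMap 0 r φ)) - T) 0 :=
    (hc1.sub continuous_const).max continuous_const
  have e6 : ∫ φ in (-ψ)..ψ, gv (-(circleMap 0 r φ)) - T ≤
      ∫ φ in (-ψ)..ψ, max (gv (-(circleMap 0 r φ)) - T) 0 :=
    intervalIntegral.integral_mono_on (by linarith)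
      ((hc1.sub continuous_const).intervalIntegrable _ _) (hc2.intervalIntegrable _ _)
      fun φ _ => le_max_left _ _
  have e7 : ∫ φ in (-ψ)..ψ, max (gv (-(circleMap 0 r φ)) - T) 0 ≤
      ∫ φ in (-π)..π, max (gv (-(circleMap 0 r φ)) - T) 0 := by
    refine intervalIntegral.integral_mono_interval (by linarith) (by linarith) h1
      (Eventually.of_forall fun φ => le_max_right _ _) (hc2.intervalIntegrable _ _)
  have e8 : ∫ φ in (-π)..π, max (gv (-(circleMap 0 r φ)) - T) 0 =
      ∫ φ in (0)..(2 * π), max (gv (circleMap 0 r φ) - T) 0 := by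
    simp only [hneg]
    have := intervalIntegral.integral_comp_add_right
      (f := fun φ => max (gv (circleMap 0 r φ) - T) 0) (a := -π) (b := π) π
    rw [this]
    congr 1 <;> ring
  rw [e2]
  linarith

end Pool.Agent.H9.EH
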