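import Mathlib

/-!
# EHP, step 1, Lemma R (bathtub principle for one logarithm on a circle)
-/

set_option autoImplicit false

open MeasureTheory Real Set Filter intervalIntegral

noncomputable section

namespace Pool.Agent.H9.EH

/-- `J r ψ t = ∫_{-ψ}^{ψ} log |r e^{iφ} + t| dφ` -/
def J (r ψ t : ℝ) : ℝ := ∫ φ in (-ψ)..ψ, Real.log ‖circleMap 0 r φ + (t : ℂ)‖

theorem norm_circleMap_add_sq (r φ t : ℝ) :
    ‖circleMap 0 r φ + (t : ℂ)‖ ^ 2 = r ^ 2 + t ^ 2 + 2 * r * t * Real.cos φ := by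
  have h1 : circleMap 0 r φ = ((r * Real.cos φ : ℝ) : ℂ) + ((r * Real.sin φ : ℝ) : ℂ) * Complex.I := by
    rw [circleMap, Complex.exp_mul_I]
    push_cast
    ring
  rw [h1]
  have h2 : ((r * Real.cos φ : ℝ) : ℂ) + ((r * Real.sin φ : ℝ) : ℂ) * Complex.I + (t : ℂ) =
      ((r * Real.cos φ + t : ℝ) : ℂ) + ((r * Real.sin φ : ℝ) : ℂ) * Complex.I := by
    push_cast; ring
  rw [h2, ← Complex.normSq_eq_norm_sq, Complex.normSq_add_mul_I]
  nlinarith [Real.sin_sq_add_cos_sq φ]

/-- monotonicity away from `φ = 0` -/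
theorem norm_le_of_cos_le (r t φ ψ : ℝ) (hr : 0 ≤ r) (ht : 0 ≤ t)
    (h : Real.cos φ ≤ Real.cos ψ) :
    ‖circleMap 0 r φ + (t : ℂ)‖ ≤ ‖circleMap 0 r ψ + (t : ℂ)‖ := by
  apply le_of_sq_le_sq _ (norm_nonneg _)
  rw [norm_circleMap_add_sq, norm_circleMap_add_sq]
  have : 0 ≤ r * t := mul_nonneg hr ht
  nlinarith

theorem norm_pos_of_cos (r t φ : ℝ) (hr : 0 < r) (ht : 0 ≤ t) (h : -1 < Real.cos φ) :
    0 < ‖circleMap 0 r φ + (t : ℂ)‖ := by
  have h2 : 0 < ‖circleMap 0 r φ + (t : ℂ)‖ ^ 2 := by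
    rw [norm_circleMap_add_sq]
    rcases ht.eq_or_lt with h3 | h3
    · rw [← h3]
      have h5 : 0 < r ^ 2 := by positivity
      nlinarith
    · have : 0 < r * t := mul_pos hr h3
      nlinarith [sq_nonneg (r - t)]
  by_contra hcon
  have h3 : ‖circleMap 0 r φ + (t : ℂ)‖ = 0 := le_antisymm (not_lt.1 hcon) (norm_nonneg _)
  rw [h3] at h2
  simp at h2

theorem intervalIntegrable_log (r t a b : ℝ) :
    IntervalIntegrable (fun φ => Real.log ‖circleMap 0 r φ + (t : ℂ)‖) volume a b := by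
  have h := circleIntegrable_log_norm_sub_const (a := -(t : ℂ)) (c := 0) r
  have h2 : IntervalIntegrable (fun φ => Real.log ‖circleMap 0 r φ + (t : ℂ)‖) volume 0 (2 * π) := by
    have := h
    unfold CircleIntegrable at this
    simpa [sub_neg_eq_add] using this
  have hp : Function.Periodic (fun φ => Real.log ‖circleMap 0 r φ + (t : ℂ)‖) (2 * π) := by
    intro φ
    simp only
    rw [periodic_circleMap]
  exact hp.intervalIntegrable₀ Real.two_pi_pos.ne' h2 a b

theorem intervalIntegrable_chi_mul {χ h : ℝ → ℝ} (hχm : Measurable χ) (hχ0 : ∀ φ, 0 ≤ χ φ)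
    (hχ1 : ∀ φ, χ φ ≤ 1) {a b : ℝ} (hh : IntervalIntegrable h volume a b) :
    IntervalIntegrable (fun x => χ x * h x) volume a b := by
  refine hh.mono_fun ?_ ?_
  · exact (hχm.aestronglyMeasurable).mul hh.def'.aestronglyMeasurable
  · refine Eventually.of_forall fun x => ?_
    simp only [norm_mul, Real.norm_eq_abs]
    rw [abs_of_nonneg (hχ0 x)]
    nlinarith [abs_nonneg (h x), hχ1 x]

/-- the centred form -/
theorem lemR_centred (r : ℝ) (hr : 0 < r) (ψ : ℝ) (h0 : 0 ≤ ψ) (h1 : ψ < π) (t : ℝ) (ht : 0 ≤ t)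
    (χ : ℝ → ℝ) (hχm : Measurable χ) (hχ0 : ∀ φ, 0 ≤ χ φ) (hχ1 : ∀ φ, χ φ ≤ 1)
    (hint : ∫ φ in (-π)..π, χ φ = 2 * ψ) :
    ∫ φ in (-π)..π, χ φ * Real.log ‖circleMap 0 r φ + (t : ℂ)‖ ≤ J r ψ t := by
  set h : ℝ → ℝ := fun φ => Real.log ‖circleMap 0 r φ + (t : ℂ)‖ with hh
  set c : ℝ := h ψ with hc
  have hI : ∀ a b, IntervalIntegrable h volume a b := fun a b => intervalIntegrable_log r t a b
  have hI2 : ∀ a b, IntervalIntegrable (fun x => χ x * (h x - c)) volume a b := fun a b =>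
    intervalIntegrable_chi_mul hχm hχ0 hχ1 ((hI a b).sub (by simp))
  have hcosψ : -1 < Real.cos ψ := by
    have := Real.cos_lt_cos_of_nonneg_of_le_pi h0 le_rfl h1
    rwa [Real.cos_pi] at this
  have hposψ : 0 < ‖circleMap 0 r ψ + (t : ℂ)‖ := norm_pos_of_cos r t ψ hr ht hcosψ
  -- above the level inside
  have hin : ∀ x ∈ Icc (-ψ) ψ, c ≤ h x := by
    intro x hx
    have h2 : Real.cos ψ ≤ Real.cos x := by
      rw [← Real.cos_abs x]
      exact Real.cos_le_cos_of_nonneg_of_le_pi (abs_nonneg x) h1.le (abs_le.2 hx)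
    exact Real.log_le_log hposψ (norm_le_of_cos_le r t ψ x hr.le ht h2)
  -- below the level outside
  have hout : ∀ x, ψ ≤ |x| → |x| < π → h x ≤ c := by
    intro x hx1 hx2
    have h2 : Real.cos x ≤ Real.cos ψ := by
      rw [← Real.cos_abs x]
      exact Real.cos_le_cos_of_nonneg_of_le_pi h0 hx2.le hx1
    have h3 : -1 < Real.cos x := by
      rw [← Real.cos_abs x]
      have := Real.cos_lt_cos_of_nonneg_of_le_pi (abs_nonneg x) le_rfl hx2
      rwa [Real.cos_pi] at this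
    exact Real.log_le_log (norm_pos_of_cos r t x hr ht h3) (norm_le_of_cos_le r t x ψ hr.le ht h2)
  have e1 : ∫ x in (-π)..(-ψ), χ x * (h x - c) ≤ 0 := by
    have := integral_mono_on_of_le_Ioo (a := -π) (b := -ψ) (f := fun x => χ x * (h x - c))
      (g := fun _ => (0 : ℝ)) (μ := volume) (by linarith) (hI2 _ _) (by simp) (by
        intro x hx
        have h4 : h x ≤ c := hout x (by rw [abs_of_nonpos (by linarith [hx.2])]; linarith [hx.2])
          (by rw [abs_of_nonpos (by linarith [hx.2])]; linarith [hx.1])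
        exact mul_nonpos_of_nonneg_of_nonpos (hχ0 x) (by linarith))
    simpa using this
  have e3 : ∫ x in ψ..π, χ x * (h x - c) ≤ 0 := by
    have := integral_mono_on_of_le_Ioo (a := ψ) (b := π) (f := fun x => χ x * (h x - c))
      (g := fun _ => (0 : ℝ)) (μ := volume) (by linarith) (hI2 _ _) (by simp) (by
        intro x hx
        have h4 : h x ≤ c := hout x (by rw [abs_of_nonneg (by linarith [hx.1])]; linarith [hx.1])
          (by rw [abs_of_nonneg (by linarith [hx.1])]; linarith [hx.2])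
        exact mul_nonpos_of_nonneg_of_nonpos (hχ0 x) (by linarith))
    simpa using this
  have e2 : ∫ x in (-ψ)..ψ, χ x * (h x - c) ≤ ∫ x in (-ψ)..ψ, (h x - c) := by
    refine integral_mono_on (by linarith) (hI2 _ _) ((hI _ _).sub (by simp)) ?_
    intro x hx
    have h5 := hin x hx
    nlinarith [hχ1 x, hχ0 x]
  have hχI : ∀ a b, IntervalIntegrable χ volume a b := by
    intro a b
    have := intervalIntegrable_chi_mul hχm hχ0 hχ1 (a := a) (b := b)
      (h := fun _ => (1 : ℝ)) (by simp)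
    simpa using this
  have e4 : ∫ x in (-π)..π, χ x * (h x - c) =
      (∫ x in (-π)..π, χ x * h x) - c * (2 * ψ) := by
    rw [← hint, ← intervalIntegral.integral_const_mul, ← intervalIntegral.integral_sub]
    · congr 1
      ext x; ring
    · exact intervalIntegrable_chi_mul hχm hχ0 hχ1 (hI _ _)
    · exact (hχI _ _).const_mul c
  have e5 : ∫ x in (-ψ)..ψ, (h x - c) = J r ψ t - c * (2 * ψ) := by
    rw [intervalIntegral.integral_sub (hI _ _) (by simp)]
    rw [intervalIntegral.integral_const]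
    unfold J
    simp only [smul_eq_mul, hh]
    ring
  have e6 : ∫ x in (-π)..π, χ x * (h x - c) =
      (∫ x in (-π)..(-ψ), χ x * (h x - c)) + (∫ x in (-ψ)..ψ, χ x * (h x - c)) +
        ∫ x in ψ..π, χ x * (h x - c) := by
    rw [integral_add_adjacent_intervals (hI2 _ _) (hI2 _ _),
      integral_add_adjacent_intervals (hI2 _ _) (hI2 _ _)]
  have e7 : ∫ x in (-π)..π, χ x * h x ≤ J r ψ t := by
    linarith
  exact e7

theorem lemR_centred_full (r : ℝ) (t : ℝ)
    (χ : ℝ → ℝ) (hχm : Measurable χ) (hχ0 : ∀ φ, 0 ≤ χ φ) (hχ1 : ∀ φ, χ φ ≤ 1)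
    (hint : ∫ φ in (-π)..π, χ φ = 2 * π) :
    ∫ φ in (-π)..π, χ φ * Real.log ‖circleMap 0 r φ + (t : ℂ)‖ ≤ J r π t := by
  have hpi : (-π : ℝ) ≤ π := by linarith [Real.pi_pos]
  have hχI : IntervalIntegrable χ volume (-π) π := by
    have := intervalIntegrable_chi_mul hχm hχ0 hχ1 (a := -π) (b := π)
      (h := fun _ => (1 : ℝ)) (by simp)
    simpa using this
  have h1 : ∫ φ in (-π)..π, (1 - χ φ) = 0 := by
    rw [intervalIntegral.integral_sub (by simp) hχI, hint]
    simp; ring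
  have h2 : (fun φ => 1 - χ φ) =ᵐ[volume.restrict (Ioc (-π) π)] 0 := by
    have := (intervalIntegral.integral_eq_zero_iff_of_le_of_nonneg_ae hpi
      (f := fun φ => 1 - χ φ) (μ := volume)
      (Eventually.of_forall fun x => by simpa using hχ1 x)
      ((by simp : IntervalIntegrable (fun _ => (1 : ℝ)) volume (-π) π).sub hχI)).1 h1
    exact this
  refine le_of_eq ?_
  unfold J
  refine intervalIntegral.integral_congr_ae_restrict ?_
  rw [uIoc_of_le hpi]
  filter_upwards [h2] with x hx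
  have : χ x = 1 := by
    have : 1 - χ x = 0 := hx
    linarith
  rw [this, one_mul]

/-- **Lemma R.** -/
theorem lemR (r : ℝ) (hr : 0 < r) (ψ : ℝ) (h0 : 0 ≤ ψ) (h1 : ψ ≤ π) (w : ℂ) (χ : ℝ → ℝ)
    (hχm : Measurable χ) (hχ0 : ∀ φ, 0 ≤ χ φ) (hχ1 : ∀ φ, χ φ ≤ 1)
    (hper : Function.Periodic χ (2 * π)) (hint : ∫ φ in (0)..(2 * π), χ φ = 2 * ψ) :
    ∫ φ in (0)..(2 * π), χ φ * Real.log ‖circleMap 0 r φ - w‖ ≤ J r ψ ‖w‖ := by
  set α : ℝ := Complex.arg (-w) with hα
  have hw : -w = (‖w‖ : ℂ) * Complex.exp (α * Complex.I) := by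
    rw [hα, ← norm_neg w, Complex.norm_mul_exp_arg_mul_I]
  have hnorm : ∀ φ, ‖circleMap 0 r φ - w‖ = ‖circleMap 0 r (φ - α) + (‖w‖ : ℂ)‖ := by
    intro φ
    have h2 : circleMap 0 r φ - w =
        Complex.exp (α * Complex.I) * (circleMap 0 r (φ - α) + (‖w‖ : ℂ)) := by
      have h3 : circleMap 0 r φ = Complex.exp (α * Complex.I) * circleMap 0 r (φ - α) := by
        simp only [circleMap, zero_add]
        rw [mul_left_comm, ← Complex.exp_add]
        congr 2
        push_cast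
        ring
      rw [sub_eq_add_neg, hw, h3]
      ring
    rw [h2, norm_mul, Complex.norm_exp_ofReal_mul_I, one_mul]
  have hp1 : Function.Periodic (fun φ => χ φ * Real.log ‖circleMap 0 r (φ - α) + (‖w‖ : ℂ)‖)
      (2 * π) := by
    intro φ
    simp only
    rw [hper φ, show φ + 2 * π - α = (φ - α) + 2 * π by ring, periodic_circleMap]
  have e1 : ∫ φ in (0)..(2 * π), χ φ * Real.log ‖circleMap 0 r φ - w‖ =
      ∫ x in (-π)..π, χ (x + α) * Real.log ‖circleMap 0 r x + (‖w‖ : ℂ)‖ := by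
    have h2 := hp1.intervalIntegral_add_eq 0 (-π + α)
    have h3 := intervalIntegral.integral_comp_add_right
      (f := fun φ => χ φ * Real.log ‖circleMap 0 r (φ - α) + (‖w‖ : ℂ)‖) (a := -π) (b := π) α
    simp only [add_sub_cancel_right] at h3
    rw [h3]
    simp only [hnorm]
    rw [zero_add] at h2
    rw [h2]
    congr 1
    ring
  have e2 : ∫ x in (-π)..π, χ (x + α) = 2 * ψ := by
    have h2 := hper.intervalIntegral_add_eq 0 (-π + α)
    have h3 := intervalIntegral.integral_comp_add_right (f := χ) (a := -π) (b := π) α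
    rw [h3, ← hint]
    rw [zero_add] at h2
    rw [h2]
    congr 1
    ring
  rw [e1]
  rcases h1.lt_or_eq with h1 | h1
  · exact lemR_centred r hr ψ h0 h1 ‖w‖ (norm_nonneg w) (fun x => χ (x + α))
      (hχm.comp (measurable_id.add_const α)) (fun x => hχ0 _) (fun x => hχ1 _) e2
  · subst h1
    exact lemR_centred_full r ‖w‖ (fun x => χ (x + α))
      (hχm.comp (measurable_id.add_const α)) (fun x => hχ0 _) (fun x => hχ1 _) e2

end Pool.Agent.H9.EH
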