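import Pool.Agent.H9.EH.Asm
import Pool.Agent.H21.EH.ModB

/-!
# EHP, the layer difference vanishes outside the range of the model
-/

set_option autoImplicit false

open MeasureTheory Real Set Filter intervalIntegral
open scoped Topology
open Pool.Agent.H21.EH (gv continuous_gv gv_nonneg one_le_conf int_gv_full)

noncomputable section

namespace Pool.Agent.H9.EH

/-- the maximum of the model on the circle of radius `r` -/
def Mr (r : ℝ) : ℝ := Real.arcosh (1 + r / 2)

/-- the minimum of the model on the circle of radius `r` -/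
def mr (r : ℝ) : ℝ := Real.arcosh (max 1 (r / 2 - 1))

/-- the zero form of the mean of logarithms -/
def xz {n : ℕ} (z : Fin n → ℂ) (w : ℂ) : ℝ := (1 / (n : ℝ)) * ∑ j, Real.log ‖w - z j‖

/-- (R1) -/
theorem gv_le_Mr (w : ℂ) : gv w ≤ Mr ‖w‖ := by
  unfold gv Mr
  have h0 := norm_nonneg w
  rw [Real.arcosh_le_arcosh (by linarith [one_le_conf w]) (by linarith)]
  have h : ‖w - 4‖ ≤ ‖w‖ + ‖(4 : ℂ)‖ := norm_sub_le w 4
  have h4 : ‖(4 : ℂ)‖ = 4 := by norm_num
  rw [h4] at h
  linarith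

/-- (R1) -/
theorem mr_le_gv (w : ℂ) : mr ‖w‖ ≤ gv w := by
  unfold gv mr
  have h1 := one_le_conf w
  rw [Real.arcosh_le_arcosh (lt_of_lt_of_le one_pos (le_max_left _ _)) (by linarith)]
  refine max_le h1 ?_
  have h : ‖w‖ ≤ ‖w - 4‖ + ‖(4 : ℂ)‖ := by
    have := norm_add_le (w - 4) 4
    simpa using this
  have h4 : ‖(4 : ℂ)‖ = 4 := by norm_num
  rw [h4] at h
  linarith

theorem Mr_nonneg {r : ℝ} (hr : 0 ≤ r) : 0 ≤ Mr r := Real.arcosh_nonneg (by linarith)

theorem mr_nonneg (r : ℝ) : 0 ≤ mr r := Real.arcosh_nonneg (le_max_left _ _)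

theorem mr_le_Mr {r : ℝ} (hr : 0 ≤ r) : mr r ≤ Mr r := by
  unfold mr Mr
  rw [Real.arcosh_le_arcosh (lt_of_lt_of_le one_pos (le_max_left _ _)) (by linarith)]
  exact max_le (by linarith) (by linarith)

theorem norm_cm {r : ℝ} (hr : 0 ≤ r) (φ : ℝ) : ‖circleMap 0 r φ‖ = r := by
  simp [abs_of_nonneg hr]

theorem cont_gv_circle (r : ℝ) : Continuous fun φ : ℝ => gv (circleMap 0 r φ) :=
  continuous_gv.comp (continuous_circleMap 0 r)

theorem intervalIntegrable_xz {n : ℕ} (z : Fin n → ℂ) (r a b : ℝ) :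
    IntervalIntegrable (fun φ => xz z (circleMap 0 r φ)) volume a b := by
  unfold xz
  refine IntervalIntegrable.const_mul ?_ _
  have := IntervalIntegrable.sum (μ := volume) (a := a) (b := b) Finset.univ
    (f := fun (j : Fin n) φ => Real.log ‖circleMap 0 r φ - z j‖)
    (fun j _ => intervalIntegrable_log_sub r (z j) _ _)
  have e : (∑ j : Fin n, fun φ => Real.log ‖circleMap 0 r φ - z j‖) =
      fun φ => ∑ j : Fin n, Real.log ‖circleMap 0 r φ - z j‖ := by
    funext φ
    simp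
  rw [e] at this
  exact this

theorem intervalIntegrable_posPart {f : ℝ → ℝ} {a b : ℝ} (hf : IntervalIntegrable f volume a b)
    (T : ℝ) : IntervalIntegrable (fun φ => max (f φ - T) 0) volume a b := by
  have h1 : IntervalIntegrable (fun φ => f φ - T) volume a b := hf.sub (by simp)
  refine h1.mono_fun (h1.def'.aestronglyMeasurable.sup aestronglyMeasurable_const) ?_
  refine Eventually.of_forall fun φ => ?_
  simp only [Real.norm_eq_abs]
  rw [abs_of_nonneg (le_max_right _ _)]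
  exact max_le (le_abs_self _) (abs_nonneg _)

/-- layer mean of the model -/
def Sv (r t : ℝ) : ℝ := ∫ φ in (0)..(2 * π), max (gv (circleMap 0 r φ) - t) 0

/-- layer mean of the polynomial -/
def Sx {n : ℕ} (z : Fin n → ℂ) (r t : ℝ) : ℝ :=
  ∫ φ in (0)..(2 * π), max (xz z (circleMap 0 r φ) - t) 0

theorem Sv_nonneg (r t : ℝ) : 0 ≤ Sv r t :=
  intervalIntegral.integral_nonneg Real.two_pi_pos.le fun _ _ => le_max_right _ _

theorem Sx_nonneg {n : ℕ} (z : Fin n → ℂ) (r t : ℝ) : 0 ≤ Sx z r t :=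
  intervalIntegral.integral_nonneg Real.two_pi_pos.le fun _ _ => le_max_right _ _

theorem Sv_le {r : ℝ} (hr : 0 ≤ r) (t : ℝ) : Sv r t ≤ 2 * π * max (Mr r - t) 0 := by
  have h : Sv r t ≤ ∫ φ in (0)..(2 * π), max (Mr r - t) 0 := by
    refine intervalIntegral.integral_mono_on Real.two_pi_pos.le
      (((cont_gv_circle r).sub continuous_const).max continuous_const |>.intervalIntegrable _ _)
      (by simp) fun φ _ => ?_
    have h1 := gv_le_Mr (circleMap 0 r φ)
    rw [norm_cm hr] at h1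
    exact max_le_max (by linarith) le_rfl
  rw [intervalIntegral.integral_const] at h
  simpa using h

theorem Sv_eq_zero {r t : ℝ} (hr : 0 ≤ r) (ht : Mr r ≤ t) : Sv r t = 0 := by
  refine le_antisymm ?_ (Sv_nonneg r t)
  have := Sv_le hr t
  rw [max_eq_right (by linarith)] at this
  simpa using this

/-- (R2) -/
theorem Sx_eq_zero {n : ℕ} {z : Fin n → ℂ} {r t : ℝ} (hr : 0 ≤ r) (ht : Mr r ≤ t)
    (hL : Sx z r t ≤ Sv r t) : Sx z r t = 0 :=
  le_antisymm (hL.trans (Sv_eq_zero hr ht).le) (Sx_nonneg z r t)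

/-- for `t ≤ m(r)` the layer mean of the model is the plain mean -/
theorem Sv_eq_of_le {r t : ℝ} (hr : 0 ≤ r) (ht : t ≤ mr r) :
    Sv r t = (∫ φ in (0)..(2 * π), gv (circleMap 0 r φ)) - 2 * π * t := by
  unfold Sv
  have h : ∀ φ, max (gv (circleMap 0 r φ) - t) 0 = gv (circleMap 0 r φ) - t := by
    intro φ
    have h1 := mr_le_gv (circleMap 0 r φ)
    rw [norm_cm hr] at h1
    exact max_eq_left (by linarith)
  simp only [h]
  rw [intervalIntegral.integral_sub ((cont_gv_circle r).intervalIntegrable _ _) (by simp),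
    intervalIntegral.integral_const]
  simp

theorem int_gv_eq {r : ℝ} (hr : 4 ≤ r) :
    ∫ φ in (0)..(2 * π), gv (circleMap 0 r φ) = 2 * π * Real.log r := by
  rw [int_gv_full (by linarith)]
  have : ∀ a : ℝ, Real.log (max r (2 + 2 * Real.cos a)) = Real.log r := by
    intro a
    rw [max_eq_left (by linarith [Real.cos_le_one a])]
  simp only [this, intervalIntegral.integral_const, sub_zero, smul_eq_mul]

/-- mean of one logarithm on a circle enclosing the point -/
theorem integral_log_of_le {r : ℝ} (hr : 0 < r) {a : ℂ} (ha : ‖a‖ ≤ r) :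
    ∫ φ in (0)..(2 * π), Real.log ‖circleMap 0 r φ - a‖ = 2 * π * Real.log r := by
  have h := circleAverage_log_norm_sub_const_eq_log_radius_add_posLog (a := a) (c := 0)
    (R := r) hr.ne'
  rw [Real.circleAverage_def] at h
  have h2 : Real.posLog (r⁻¹ * ‖0 - a‖) = 0 := by
    rw [Real.posLog_eq_zero_iff]
    rw [zero_sub, norm_neg]
    have : r⁻¹ * ‖a‖ ≤ 1 := by
      rw [inv_mul_le_iff₀ hr]; linarith
    have h3 : 0 ≤ r⁻¹ * ‖a‖ := by positivity
    rwa [abs_of_nonneg h3]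
  rw [h2] at h
  simp only [smul_eq_mul, add_zero] at h
  field_simp at h
  linarith

theorem integral_xz {n : ℕ} (hn : 0 < n) (z : Fin n → ℂ) {r : ℝ} (hr : 0 < r)
    (hz : ∀ j, ‖z j‖ ≤ r) :
    ∫ φ in (0)..(2 * π), xz z (circleMap 0 r φ) = 2 * π * Real.log r := by
  unfold xz
  rw [intervalIntegral.integral_const_mul, intervalIntegral.integral_finsetSum]
  · have : ∀ j ∈ Finset.univ, ∫ φ in (0)..(2 * π), Real.log ‖circleMap 0 r φ - z j‖ =
        2 * π * Real.log r := fun j _ => integral_log_of_le hr (hz j)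
    rw [Finset.sum_congr rfl this]
    simp only [Finset.sum_const, Finset.card_univ, Fintype.card_fin, nsmul_eq_mul]
    have : (n : ℝ) ≠ 0 := by positivity
    field_simp
  · intro j _
    exact intervalIntegrable_log_sub r (z j) _ _

theorem Sx_ge {n : ℕ} (z : Fin n → ℂ) (r t : ℝ) :
    (∫ φ in (0)..(2 * π), xz z (circleMap 0 r φ)) - 2 * π * t ≤ Sx z r t := by
  unfold Sx
  have h : (∫ φ in (0)..(2 * π), xz z (circleMap 0 r φ)) - 2 * π * t =
      ∫ φ in (0)..(2 * π), (xz z (circleMap 0 r φ) - t) := by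
    rw [intervalIntegral.integral_sub (intervalIntegrable_xz z r _ _) (by simp),
      intervalIntegral.integral_const]
    simp
  rw [h]
  exact intervalIntegral.integral_mono_on Real.two_pi_pos.le
    ((intervalIntegrable_xz z r _ _).sub (by simp))
    (intervalIntegrable_posPart (intervalIntegrable_xz z r _ _) t)
    fun φ _ => le_max_left _ _

/-- (R3) both layer means agree below the range -/
theorem Sx_eq_Sv {n : ℕ} (hn : 0 < n) {z : Fin n → ℂ} {r t : ℝ} (hr4 : 4 ≤ r)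
    (hz : ∀ j, ‖z j‖ ≤ 4)
    (ht : t ≤ mr r) (hL : Sx z r t ≤ Sv r t) :
    Sx z r t = 2 * π * (Real.log r - t) ∧ Sv r t = 2 * π * (Real.log r - t) := by
  have hr : 0 < r := by linarith
  have hz : ∀ j, ‖z j‖ ≤ r := fun j => (hz j).trans hr4
  have h1 : Sv r t = 2 * π * (Real.log r - t) := by
    rw [Sv_eq_of_le hr.le ht, int_gv_eq hr4]; ring
  have h2 := Sx_ge z r t
  rw [integral_xz hn z hr hz] at h2
  refine ⟨le_antisymm (hL.trans h1.le) ?_, h1⟩
  linarith

/-! ### pointwise consequences -/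

theorem continuousAt_xz {n : ℕ} (z : Fin n → ℂ) {w : ℂ} (hw : ∀ j, w ≠ z j) :
    ContinuousAt (xz z) w := by
  unfold xz
  refine ContinuousAt.mul continuousAt_const ?_
  refine tendsto_finsetSum _ fun j _ => ?_
  exact ((continuousAt_id.sub continuousAt_const).norm).log
    (by simpa [sub_eq_zero] using hw j)

/-- from an almost everywhere inequality on the circle to the points which are no zeros -/
theorem le_of_integral_eq_zero {f : ℝ → ℝ} {φ₀ : ℝ} (hper : Function.Periodic f (2 * π))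
    (hf : IntervalIntegrable f volume 0 (2 * π)) (hnn : ∀ φ, 0 ≤ f φ)
    (hint : ∫ φ in (0)..(2 * π), f φ = 0) (hc : ContinuousAt f φ₀) : f φ₀ ≤ 0 := by
  by_contra hcon
  rw [not_le] at hcon
  have hI : ∀ a b, IntervalIntegrable f volume a b := fun a b =>
    hper.intervalIntegrable₀ Real.two_pi_pos.ne' hf a b
  have h1 : ∀ᶠ φ in 𝓝 φ₀, f φ₀ / 2 < f φ := hc.eventually (lt_mem_nhds (by linarith))
  obtain ⟨δ, hδ, hball⟩ := Metric.eventually_nhds_iff.1 h1
  set ε : ℝ := min (δ / 2) π with hε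
  have hε0 : 0 < ε := lt_min (by linarith) Real.pi_pos
  have h2 : ∫ φ in (φ₀ - π)..(φ₀ - π + 2 * π), f φ = 0 := by
    rw [← hint]
    have := hper.intervalIntegral_add_eq (φ₀ - π) 0
    rw [zero_add] at this
    exact this
  have h3 : ∫ φ in (φ₀ - ε)..(φ₀ + ε), f φ ≤ ∫ φ in (φ₀ - π)..(φ₀ - π + 2 * π), f φ := by
    refine intervalIntegral.integral_mono_interval ?_ (by linarith) ?_
      (Eventually.of_forall fun φ => hnn φ) (hI _ _)
    · have := min_le_right (δ / 2) π
      linarith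
    · have := min_le_right (δ / 2) π
      linarith
  have h4 : ∫ φ in (φ₀ - ε)..(φ₀ + ε), f φ₀ / 2 ≤ ∫ φ in (φ₀ - ε)..(φ₀ + ε), f φ := by
    refine intervalIntegral.integral_mono_on (by linarith) (by simp) (hI _ _) fun φ hφ => ?_
    refine (hball ?_).le
    rw [Real.dist_eq, abs_lt]
    have := min_le_left (δ / 2) π
    constructor <;> linarith [hφ.1, hφ.2]
  rw [intervalIntegral.integral_const, smul_eq_mul] at h4
  have h5 : 0 < (φ₀ + ε - (φ₀ - ε)) * (f φ₀ / 2) := by
    apply mul_pos <;> linarith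
  linarith

theorem exists_circleMap {r : ℝ} {w : ℂ} (hw : ‖w‖ = r) :
    circleMap 0 r w.arg = w := by
  simp only [circleMap, zero_add]
  rw [← hw]
  exact Complex.norm_mul_exp_arg_mul_I w

theorem continuousAt_xz_circle {n : ℕ} (z : Fin n → ℂ) {r φ : ℝ}
    (hw : ∀ j, circleMap 0 r φ ≠ z j) :
    ContinuousAt (fun φ => xz z (circleMap 0 r φ)) φ :=
  ContinuousAt.comp (f := circleMap 0 r) (continuousAt_xz z hw)
    (continuous_circleMap 0 r).continuousAt

theorem periodic_xz {n : ℕ} (z : Fin n → ℂ) (r : ℝ) :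
    Function.Periodic (fun φ => xz z (circleMap 0 r φ)) (2 * π) := by
  intro φ
  simp only
  rw [periodic_circleMap]

/-- (R2) `x ≤ M(r)` on the circle -/
theorem xz_le_Mr {n : ℕ} {z : Fin n → ℂ} {w : ℂ} (hw : ∀ j, w ≠ z j)
    (hL : Sx z ‖w‖ (Mr ‖w‖) ≤ Sv ‖w‖ (Mr ‖w‖)) : xz z w ≤ Mr ‖w‖ := by
  set r := ‖w‖ with hr
  have hr0 : 0 ≤ r := norm_nonneg w
  have h1 := Sx_eq_zero hr0 le_rfl hL
  have hcm : circleMap 0 r w.arg = w := exists_circleMap hr.symm
  have h2 := le_of_integral_eq_zero (f := fun φ => max (xz z (circleMap 0 r φ) - Mr r) 0)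
    (φ₀ := w.arg) (by
      intro φ
      simp only
      rw [periodic_circleMap]) (intervalIntegrable_posPart (intervalIntegrable_xz z r _ _) _)
    (fun φ => le_max_right _ _) h1
    (((continuousAt_xz_circle z (by rw [hcm]; exact hw)).sub continuousAt_const).max
      continuousAt_const)
  simp only [hcm] at h2
  have := le_max_left (xz z w - Mr r) 0
  linarith

/-- (R3) `x ≥ m(r)` on the circle -/
theorem mr_le_xz {n : ℕ} (hn : 0 < n) {z : Fin n → ℂ} {w : ℂ} (hw4 : 4 ≤ ‖w‖)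
    (hw : ∀ j, w ≠ z j) (hz4 : ∀ j, ‖z j‖ ≤ 4)
    (hL : Sx z ‖w‖ (mr ‖w‖) ≤ Sv ‖w‖ (mr ‖w‖)) : mr ‖w‖ ≤ xz z w := by
  set r := ‖w‖ with hr
  have hw0 : 0 < r := by linarith
  have hz : ∀ j, ‖z j‖ ≤ r := fun j => (hz4 j).trans hw4
  have h1 := (Sx_eq_Sv hn hw4 hz4 le_rfl hL).1
  have hcm : circleMap 0 r w.arg = w := exists_circleMap hr.symm
  have hI := intervalIntegrable_xz z r 0 (2 * π)
  have hint : ∫ φ in (0)..(2 * π), (max (xz z (circleMap 0 r φ) - mr r) 0 -
      (xz z (circleMap 0 r φ) - mr r)) = 0 := by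
    rw [intervalIntegral.integral_sub (intervalIntegrable_posPart hI _) (hI.sub (by simp)),
      intervalIntegral.integral_sub hI (by simp), intervalIntegral.integral_const,
      integral_xz hn z hw0 hz]
    have : ∫ φ in (0)..(2 * π), max (xz z (circleMap 0 r φ) - mr r) 0 =
        2 * π * (Real.log r - mr r) := h1
    rw [this]
    simp only [smul_eq_mul]
    ring
  have hc := continuousAt_xz_circle z (r := r) (φ := w.arg) (by rw [hcm]; exact hw)
  have h2 := le_of_integral_eq_zero (f := fun φ => max (xz z (circleMap 0 r φ) - mr r) 0 -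
      (xz z (circleMap 0 r φ) - mr r))
    (φ₀ := w.arg) (by
      intro φ
      simp only
      rw [periodic_circleMap])
    ((intervalIntegrable_posPart hI _).sub (hI.sub (by simp)))
    (fun φ => sub_nonneg.2 (le_max_left _ _)) hint
    (((hc.sub continuousAt_const).max continuousAt_const).sub (hc.sub continuousAt_const))
  simp only [hcm] at h2
  have := le_max_right (xz z w - mr r) 0
  linarith

/-- the width of the range tends to zero -/
theorem Mr_sub_mr_le {r : ℝ} (hr : 8 ≤ r) : Mr r - mr r ≤ 8 / r := by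
  have hmax : max 1 (r / 2 - 1) = r / 2 - 1 := max_eq_right (by linarith)
  unfold Mr mr
  rw [hmax]
  have hm := exists_hasDerivAt_eq_slope Real.arcosh (fun x => (√(x ^ 2 - 1))⁻¹)
    (a := r / 2 - 1) (b := 1 + r / 2) (by linarith)
    (Real.continuousOn_arcosh.mono fun x hx => by
      simp only [mem_Ici]; linarith [hx.1])
    (fun x hx => Real.hasDerivAt_arcosh (by simp only [mem_Ioi]; linarith [hx.1]))
  obtain ⟨c, hc, hc2⟩ := hm
  have e : (1 + r / 2 - (r / 2 - 1)) = 2 := by ring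
  rw [e] at hc2
  have h1 : Real.arcosh (1 + r / 2) - Real.arcosh (r / 2 - 1) = 2 * (√(c ^ 2 - 1))⁻¹ := by
    rw [hc2]; ring
  rw [h1]
  have h2 : (r / 4) ^ 2 ≤ c ^ 2 - 1 := by nlinarith [hc.1]
  have h3 : r / 4 ≤ √(c ^ 2 - 1) := Real.le_sqrt_of_sq_le h2
  have h4 : (√(c ^ 2 - 1))⁻¹ ≤ (r / 4)⁻¹ := inv_anti₀ (by linarith) h3
  calc 2 * (√(c ^ 2 - 1))⁻¹ ≤ 2 * (r / 4)⁻¹ := by linarith
    _ = 8 / r := by field_simp; norm_num

/-! ### summary -/

/-- layer difference -/
def DD {n : ℕ} (z : Fin n → ℂ) (r t : ℝ) : ℝ := Sv r t - Sx z r t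

theorem DD_eq_zero_of_ge {n : ℕ} {z : Fin n → ℂ} {r t : ℝ} (hr : 0 ≤ r) (ht : Mr r ≤ t)
    (hL : Sx z r t ≤ Sv r t) : DD z r t = 0 := by
  unfold DD
  rw [Sx_eq_zero hr ht hL, Sv_eq_zero hr ht, sub_zero]

theorem DD_eq_zero_of_le {n : ℕ} (hn : 0 < n) {z : Fin n → ℂ} {r t : ℝ} (hr4 : 4 ≤ r)
    (hz : ∀ j, ‖z j‖ ≤ 4) (ht : t ≤ mr r) (hL : Sx z r t ≤ Sv r t) : DD z r t = 0 := by
  unfold DD
  rw [(Sx_eq_Sv hn hr4 hz ht hL).1, (Sx_eq_Sv hn hr4 hz ht hL).2, sub_self]

/-- global bound -/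
theorem DD_le {n : ℕ} {z : Fin n → ℂ} {r : ℝ} (hr : 0 ≤ r) (t : ℝ) :
    DD z r t ≤ 2 * π * max (Mr r - t) 0 := by
  unfold DD
  linarith [Sx_nonneg z r t, Sv_le hr t]

/-- bound at infinity -/
theorem DD_le_of_ge {n : ℕ} (hn : 0 < n) {z : Fin n → ℂ} {r t : ℝ} (hr8 : 8 ≤ r)
    (hz : ∀ j, ‖z j‖ ≤ 4) (hL : Sx z r t ≤ Sv r t) : DD z r t ≤ 2 * π * (8 / r) := by
  have hpi := Real.pi_pos
  have h8 : 0 ≤ 8 / r := by positivity
  rcases le_total t (mr r) with h | h
  · rw [DD_eq_zero_of_le hn (by linarith) hz h hL]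
    positivity
  · refine (DD_le (by linarith) t).trans ?_
    refine mul_le_mul_of_nonneg_left ?_ (by linarith)
    refine max_le ?_ h8
    linarith [Mr_sub_mr_le hr8]

end Pool.Agent.H9.EH
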